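import Pool.Agent.Run7.h260.VX.X12
import Pool.Agent.Run7.h260.VX.Z5

/-!
# Closures of the 3-braids `Δ^{2m} (s_1 s_2⁻¹)^n` for all `n`, `m` with `n + |m|` large: interface

Known (VC, VX): for every `n` there is `M(n)` such that the volume conjecture and the full expansion
hold for `|m| ≥ M(n)`.  Now: `n ≥ n₀` and ALL `m`.  The critical point of the axis variable is
`z ~ i / (n c - i m / π)`, `c = 1 / (π √3)`, so `‖z‖ ≤ C / (n + |m|)`.  All constants of the pieces have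
to be independent of `n`, except where the statement says otherwise.
-/

set_option autoImplicit false

namespace Run7.h260.VU

open Filter Topology Metric Function Finset
open Pool.Agent.W711.HT hiding bb
open Pool.Agent.Y472 Pool.Agent.Y472.K
open Pool.Agent.W719.AX (UX EXY)
open Run7.h260.VC Run7.h260.VX
open Pool.Agent.Y482.Ph (GXc nearS SB)
open GapVol (lob)
open scoped Real

/-- the near part of the trace: configurations in windows of size `ρ` -/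
noncomputable def TN (n : ℕ) [NeZero n] (ρ : ℝ) (N : ℕ) (χ : ℂ) : ℂ :=
  (-1) ^ n * ∑ c ∈ NC n (fun _ => ρ) N, co n N c.1 c.2 * Qc n N c.1 c.2 χ

/-- P1: quadratic gap of a pair.  `E0_gap` away from `x = 0, a = 2/3, b = 1/3`; near this point
`E0_eq` and `FF_third_min`, `FF_lob` (VC.P5): `Λ(π/3 + π s) ≤ Λ(π/3) - π Ll s - π s ^ 2 / 2`. -/
def S_P1 : Prop := ∃ c : ℝ, 0 < c ∧ ∀ x a b : ℝ, 0 ≤ b → b ≤ a → a ≤ 1 → |x| ≤ π →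
  E0 x a b ≤ 3 * lob (π / 3) / π - c * x ^ 2

/-- P2: `VC.far_bd` with `κ` independent of `n` (same proof). -/
def S_P2 : Prop := ∀ ρ : ℝ, 0 < ρ → ∃ κ : ℝ, 0 < κ ∧ ∀ (n : ℕ) [NeZero n], ∃ τ : ℝ, 0 < τ ∧
  ∀ᶠ N : ℕ in atTop, ∀ i j : Fin n → ℕ, Ok n N i j → ∀ χ : ℂ, |χ.re| ≤ π → |χ.im| ≤ τ →
    (ρ ≤ |χ.re| ∨ ∃ r, ρ ≤ |(i r : ℝ) / N - 2 / 3| ∨ ρ ≤ |(j r : ℝ) / N - 1 / 3|) →
    ‖co n N i j * Qc n N i j χ‖ ≤ Real.exp (N * (G0 n - κ))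

/-- P3: `VC.far_bd` with the loss `c n ρ ^ 2` for `ρ ≤ |χ.re|` (every one of the `2 n` pairs loses
`c ρ ^ 2` by P1; same proof, `τ` may depend on `n` and `ρ`). -/
def S_P3 : Prop := S_P1 → ∃ c : ℝ, 0 < c ∧ ∀ (n : ℕ) [NeZero n] (ρ : ℝ), 0 < ρ → ∃ τ : ℝ, 0 < τ ∧
  ∀ᶠ N : ℕ in atTop, ∀ i j : Fin n → ℕ, Ok n N i j → ∀ χ : ℂ, |χ.re| ≤ π → |χ.im| ≤ τ →
    ρ ≤ |χ.re| → ‖co n N i j * Qc n N i j χ‖ ≤ Real.exp (N * (G0 n - c * n * ρ ^ 2))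

/-- P4: reduction to the near part (as `VC.Tf_far`, `VC.Thi_bd`, `VC.rest_far`, `VC.err_bd`, with
constants independent of `n`; `cJC'` of VX.X10 gives the sign `(-1) ^ n`). -/
def S_P4 : Prop := S_P1 → S_P2 → S_P3 → ∀ ρ₀ : ℝ, 0 < ρ₀ → ∃ κ c : ℝ, 0 < κ ∧ 0 < c ∧
  ∀ (n : ℕ) [NeZero n] (R : ℝ), 0 < R → R ≤ 1 → ∀ m : ℤ, ∀ᶠ N : ℕ in atTop,
    ‖SB N (wd n) m - nearS R N (deriv fun χ => wE N m χ * TN n ρ₀ N χ)‖ ≤
      Real.exp (N * (G0 n - min κ (c * n * R ^ 2)))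

/-- P5: upper bound of the potential, term by term: real configurations as in `VC.Qp_max`; moving the
configuration off the real axis costs at most `5 |y_j|` per variable (`ls` is about `0.55` near `1/3`
and near `2/3`, and `Re (π i (A' - A) B)` costs about `2 π / 3` per upper variable); the axis variable
enters by `FF (B + ξ) + FF (B - ξ)`, so it costs only `O(‖ξ‖ ^ 2)` per term. -/
def S_P5 : Prop := ∃ δ L : ℝ, 0 < δ ∧ δ ≤ 1 / 1000000 ∧ 0 < L ∧ ∀ (n : ℕ) [NeZero n]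
  (x : Ix n → ℂ), (∀ j, ‖x j‖ ≤ δ) → (Qp n x).re ≤ G0 n - ∑ j ∈ Sv n, (x j).re ^ 2 +
    5 * ∑ j ∈ Sv n, |(x j).im| + L * n * ‖x none‖ ^ 2

/-- P6: bound of the potential on the real directions through the critical point: `Re FF (z + s) ≥
Re FF z + s Re ls z + s ^ 2 / 2` for `z` near `1/3`, `s` real and small, the opposite inequality near
`2/3`; the linear terms cancel since `Dd (bet χ) χ = 0`. -/
def S_P6 : Prop := ∃ δ : ℝ, 0 < δ ∧ δ ≤ 1 / 1000000 ∧ ∀ (n : ℕ) [NeZero n] (χ : ℂ), ‖χ‖ ≤ δ →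
  ∀ t : Ix n → ℝ, t none = 0 → (∀ j, |t j| ≤ δ) →
    (Qp n (Up n (bet χ) χ + rc t)).re ≤ (Gv n χ).re - ∑ j, t j ^ 2

/-- P7: the critical point and the critical value near `χ = 0` -/
def S_P7 : Prop := (∀ (n : ℕ) [NeZero n] (χ : ℂ), Gv n χ = n * Gv 1 χ) ∧
  ∃ δ C : ℝ, 0 < δ ∧ δ ≤ 1 / 1000000 ∧ 0 < C ∧ ∀ χ : ℂ, ‖χ‖ ≤ δ → ‖bet χ‖ ≤ C * ‖χ‖ ^ 2 ∧
    ‖bet χ‖ ≤ 1 / 1000000 ∧ Dd (bet χ) χ = 0 ∧ AnalyticAt ℂ bet χ ∧ bet (-χ) = bet χ ∧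
    AnalyticAt ℂ (Gv 1) χ ∧ Gv 1 (-χ) = Gv 1 χ ∧
    HasDerivAt (Gv 1) (-(1 / π) * (ls (1 / 3 + bet χ + χ / (2 * π)) -
      ls (1 / 3 + bet χ - χ / (2 * π)))) χ

/-- P8: the critical point of the axis variable, pure complex analysis in one variable.
`z = i / (n c - i m / π) + …`, by the contraction principle (`Pool.Agent.W19.HTFix.task` or by hand);
model: `Pool.Agent.Y391.CB.crit_exists`, `Pool.Agent.W293.HT.quad_bound`. -/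
def S_P8 : Prop := ∀ (g : ℂ → ℂ) (c δ : ℝ), 0 < c → 0 < δ →
  (∀ z ∈ ball (0 : ℂ) δ, AnalyticAt ℂ g z ∧ g (-z) = g z) → deriv (deriv g) 0 = ((-c : ℝ) : ℂ) →
  ∃ C K₀ : ℝ, 0 < C ∧ 0 < K₀ ∧ ∀ K : ℝ, K₀ ≤ K → ∃ n₀ : ℕ, 1 ≤ n₀ ∧ ∀ n : ℕ, n₀ ≤ n →
    2 * (K / n) < δ ∧ K / n ≤ 1 ∧ ∀ m : ℤ, ∃ z : ℂ, z ∈ Rc (K / n / 4) (K / n / 4) ∧ 0 < z.im ∧
      ‖z‖ ≤ C / (n + |(m : ℝ)|) ∧
      Complex.I * m * z / π + Complex.I + deriv (fun χ => n * g χ) z = 0 ∧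
      SAD (2 * m) (fun χ => n * g χ) (K / n / 4) z ∧
      ‖qq (2 * m) (fun χ => n * g χ) z - n * g 0‖ ≤ C / (n + |(m : ℝ)|) ∧
      ∃ c' : ℝ, 0 < c' ∧ ∀ x : ℝ, |x| ≤ K / n / 3 →
        (qq (2 * m) (fun χ => n * g χ) (x + z.im * Complex.I)).re ≤
          (qq (2 * m) (fun χ => n * g χ) z).re - c' / 2 * (x - z.re) ^ 2

/-- P9: `VX.nearD` (file VX.Z1) with a neighbourhood independent of `n` (same proof; the derivative of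
`Gv n` from P7, `NearD n` from `NearD 1` and `Gv n χ = n * Gv 1 χ`) -/
def S_P9 : Prop := S_P7 → ∀ᶠ χ : ℂ in 𝓝 0, ∀ (n : ℕ) [NeZero n], NearD n χ

/-- P10: the lattice may be shifted by a complex number `b`.  One variable: `VX.core` (file VX.X2)
for `g` with `z := b`, and for `w ↦ g (w + b)` with `z := 0` (`k = 1`, `η = ρ / 2`, `hh = ρ ^ 2 / 48`,
its `ε` about `20 ε`); then one variable after the other (telescoping sum over `S`), the number of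
configurations is at most `(N + 1) ^ card ι`. -/
def S_P10 : Prop := ∀ ρ : ℝ, 0 < ρ → ρ ≤ 1 / 16 → ∃ ε κ : ℝ, 0 < ε ∧ 0 < κ ∧
  ∀ (ι : Type) [Fintype ι] [DecidableEq ι] (S : Finset ι) (C₀ : ℝ), 0 ≤ C₀ → ∀ᶠ N : ℕ in atTop,
    ∀ (f : (ι → ℂ) → ℂ) (V : ℝ) (x : ι → ℂ) (b : ℂ), (S.card : ℝ) * ‖b‖ ≤ ε →
    (∀ y : ι → ℂ, (∀ j, j ∉ S → y j = x j) → (∀ j ∈ S, ‖y j‖ ≤ 4 * ρ) →
      ∀ i ∈ S, DifferentiableAt ℂ (fun w => f (update y i w)) (y i)) →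
    (∀ y : ι → ℂ, (∀ j, j ∉ S → y j = x j) → (∀ j ∈ S, ‖y j‖ ≤ 4 * ρ) →
      ‖f y‖ ≤ C₀ * Real.exp (N * (V + ε - ∑ j ∈ S, (y j).re ^ 2 + 5 * ∑ j ∈ S, |(y j).im|))) →
    ‖∑ d ∈ Cf (1 / 3) (fun _ => ρ) S N, f (pt (1 / 3) S N d x) -
      ∑ d ∈ Cf (1 / 3) (fun _ => ρ) S N,
        f (fun i => if i ∈ S then (d i : ℂ) / N - 1 / 3 + b else x i)‖ ≤ Real.exp (N * (V - κ))

/-- P11: the expansion at a point `χ₁`, with the lattice shifted by `bet χ₁`.  Same proof as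
`VX.near_ord` (file VX.X10), with the function `y ↦ fX n N (x₁ + y)` and the potential
`y ↦ Qp n (x₁ + y)`, `x₁ = Up n (bet χ₁) χ₁` instead of `0`: `VX.elimX` needs `Qm (Sv n) 1` (this is
P6), the vanishing derivatives (`fderiv_Up` and P7) and `EXn` (`VX.fX_ex`, translated by `x₁`).  `elimX`
has small windows; the rest of the windows of size `ρ` is exponentially small by P6 and
`|Re FF|` continuous: bound `‖fX n N x‖ ≤ C exp (N Re Qp n x)`.  `R` may depend on `n`, `ρ`, `χ₁`. -/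
def S_P11 : Prop := S_P6 → S_P7 → ∃ δ : ℝ, 0 < δ ∧ ∀ (n : ℕ) [NeZero n] (ρ : ℝ), 0 < ρ → ρ ≤ δ →
  ∀ χ₁ : ℂ, ‖χ₁‖ ≤ δ → ∃ (R : ℝ) (A : ℕ → ℂ → ℂ), 0 < R ∧
    UX (fun (N : ℕ) (χ : ℂ) => Complex.exp (-(N * Gv n χ)) * (((N : ℂ)⁻¹) ^ n *
      ∑ d ∈ Cf (1 / 3) (fun _ => ρ) (Sv n) N,
        fX n N (fun i => if i ∈ Sv n then (d i : ℂ) / N - 1 / 3 + bet χ₁ else χ))) A (ball χ₁ R) ∧
    ∀ χ ∈ ball χ₁ R, A 0 χ ≠ 0

/-- P12: patching of expansions on a compact disk (finite subcover; take the coefficients of the first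
ball of the cover which contains the point, no uniqueness needed) -/
def S_P12 : Prop := ∀ (r : ℝ) (Y : ℕ → ℂ → ℂ), (∀ χ₁ : ℂ, ‖χ₁‖ ≤ r → ∃ (R : ℝ) (A : ℕ → ℂ → ℂ), 0 < R ∧
    UX Y A (ball χ₁ R ∩ closedBall 0 r) ∧ ∀ χ ∈ ball χ₁ R ∩ closedBall 0 r, A 0 χ ≠ 0) →
  ∃ A : ℕ → ℂ → ℂ, UX Y A (closedBall 0 r) ∧ ∀ χ ∈ closedBall (0 : ℂ) r, A 0 χ ≠ 0

/-- P13: the sum over the axis variable to all orders, at a given critical point: the proof of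
`Pool.Agent.Y497.PH.chix` after its use of `crit_exists`. -/
def S_P13 : Prop := ∀ (R c : ℝ), 0 < R → R ≤ 1 → 0 < c →
  ∀ (X : ℕ → ℂ → ℂ) (G : ℂ → ℂ) (A : ℕ → ℂ → ℂ), (∀ N, Differentiable ℂ (X N)) →
    (∀ N z, X N (-z) = X N z) → DifferentiableOn ℂ G (Rc R R) → (∀ z ∈ Rc R R, G (-z) = G z) →
    GXc R X G A → ∀ (m : ℤ) (z : ℂ), z ∈ Rc (R / 4) (R / 4) → 0 < z.im → SAD (2 * m) G (R / 4) z →
    (∀ x : ℝ, |x| ≤ R / 3 → (qq (2 * m) G (x + z.im * Complex.I)).re ≤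
      (qq (2 * m) G z).re - c / 2 * (x - z.re) ^ 2) →
    ∃ y : ℕ → ℂ, y 0 ≠ 0 ∧ EXY (fun N => nearS R N (deriv fun χ => wE N m χ * X N χ))
      (qq (2 * m) G z) y

/-- conclusion of P14 -/
def C_P14 : Prop := ∃ ρ₀ : ℝ, 0 < ρ₀ ∧ ∀ K : ℝ, 0 < K → ∃ n₀ : ℕ, ∀ (n : ℕ) [NeZero n], n₀ ≤ n →
  ∃ A : ℕ → ℂ → ℂ, GXc (K / n) (TN n ρ₀) (Gv n) A

/-- P14: the near trace to all orders on the square of size `K / n`.  `near_sum` and `ST_fX` (as in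
`VX.near_ord`) write `TN n ρ₀ N χ` as `(-1) ^ n N ^ (-n)` times the sum of `fX n N` over the real
lattice; P10 with `V = G0 n`, bound from P5 and `VX.fX_ex` (`‖fX n N y‖ ≤ C exp (N Re Qp n y)`), shifts
it by `bet χ₁`, `‖bet χ₁‖ ≤ C K ^ 2 / n ^ 2`; P11 at `χ₁`, `ux_small` for the error
(`Re Gv n χ ≥ G0 n - O(K ^ 2 / n)`), P12; the coefficients are differentiable by
`Pool.Agent.W303.AX.uxan` as in `VX.exists_RX`. -/
def S_P14 : Prop := S_P5 → S_P6 → S_P7 → S_P10 → S_P11 → S_P12 → C_P14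

/-- conclusion of P15 -/
def C_P15 : Prop := ∃ C M : ℝ, 0 < C ∧ 0 < M ∧ ∀ (n : ℕ) [NeZero n] (m : ℤ), M ≤ n + |(m : ℝ)| →
  ∃ (z : ℂ) (y : ℕ → ℂ), 0 < z.im ∧ ‖z‖ ≤ C / (n + |(m : ℝ)|) ∧
    Complex.I * m * z / π + Complex.I + deriv (Gv n) z = 0 ∧
    ‖vv n m z - Gv n 0‖ ≤ C / (n + |(m : ℝ)|) ∧ y 0 ≠ 0 ∧
    EXY (fun N => Pool.Agent.H550R3.Jones.cjones N 2 (ftw m ++ bw (wd n)) (vN N)) (vv n m z) y

/-- P15: the expansion of the Kashaev invariants for all `n + |m| ≥ M`: for `n ≥ n₀` from the other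
pieces as in the proof of `VX.main_exy` (P8 with `R = K / n`, P13, P4; `K` so large that
`c K ^ 2 > 2 C`, then `n₀`), for the finitely many `n < n₀` from `VX.main_exy`. -/
def S_P15 : Prop := S_P1 → S_P2 → S_P3 → S_P4 → S_P7 → S_P8 → S_P13 → C_P14 → C_P15

/-- conclusion of P16, the main theorem -/
def C_P16 : Prop := ∃ C M : ℝ, 0 < C ∧ 0 < M ∧ ∀ (n : ℕ) [NeZero n] (m : ℤ), M ≤ n + |(m : ℝ)| →
  ∃ x y z x' y' z' : ℕ → ℝ, AngC n m x y z x' y' z' ∧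
    (∀ a b c a' b' c' : ℕ → ℝ, AngC n m a b c a' b' c' →
      volC n a b c a' b' c' ≤ volC n x y z x' y' z') ∧
    |volC n x y z x' y' z' - 12 * n * lob (π / 3)| ≤ C / (n + |(m : ℝ)|) ∧
    ∃ (v : ℂ) (w : ℕ → ℂ), 2 * π * v.re = volC n x y z x' y' z' ∧
      cs n x y z x' y' z' (lab n) = 2 * π * Complex.I * v ∧ w 0 ≠ 0 ∧
      EXY (fun N => Pool.Agent.H550R3.Jones.cjones N 2 (ftw m ++ bw (wd n)) (vN N)) v w

/-- P16: the proof of `VX.main_cs` (file VX.Z5) with `n + |m|` instead of `|m|` -/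
def S_P16 : Prop := (∀ᶠ χ : ℂ in 𝓝 0, ∀ (n : ℕ) [NeZero n], NearD n χ) → C_P15 → C_P16

/-- assembly -/
theorem assemble (p1 : S_P1) (p2 : S_P2) (p3 : S_P3) (p4 : S_P4) (p5 : S_P5) (p6 : S_P6) (p7 : S_P7)
    (p8 : S_P8) (p9 : S_P9) (p10 : S_P10) (p11 : S_P11) (p12 : S_P12) (p13 : S_P13) (p14 : S_P14)
    (p15 : S_P15) (p16 : S_P16) : C_P16 :=
  p16 (p9 p7) (p15 p1 p2 p3 p4 p7 p8 p13 (p14 p5 p6 p7 p10 p11 p12))

end Run7.h260.VU
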