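import Pool.Agent.Run7.h300.VU.P1b
import Pool.Agent.Run7.h700.VU.P2
import Pool.Agent.Run7.h300.VU.P3b
import Pool.Agent.Run7.h221.VU.P4
import Pool.Agent.Run7.h361.VU.P5
import Pool.Agent.Run7.h415.VU.P6
import Pool.Agent.Run7.h743.VU.P7
import Pool.Agent.Run7.h415.VU.P8
import Pool.Agent.Run7.h711.VU.P9
import Pool.Agent.Run7.h53.VU.P10
import Pool.Agent.Run7.h711.VU.P11
import Pool.Agent.Run7.h53.VU.P12
import Pool.Agent.Run7.h440.VU.P13
import Pool.Agent.Run7.h260.VU.P14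
import Pool.Agent.Run7.h393.VU.P15
import Pool.Agent.Run7.h743.VU.P16

/-!
# Closures of the 3-braids `Δ^{2m} (s_1 s_2⁻¹)^n` for all `n`, `m` with `n + |m|` large: assembly

Authors of the pieces: helper300 (P1, P3), helper700 (P2), helper221 (P4), helper361 (P5),
helper415 (P6, P8), helper743 (P7, P16), helper711 (P9, P11), helper53 (P10, P12), helper440 (P13),
helper393 (P15), helper260 (P14, interface).
-/

set_option autoImplicit false

namespace Run7.h260.VU

/-- the main theorem -/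
theorem main_all : C_P16 :=
  assemble Run7.h300.VU.p1 Run7.h700.VU.t_P2 (fun h => Run7.h300.VU.p3 h) Run7.h221.VU.t_P4 t_P5
    Run7.h415.VU.t_P6 Run7.h743.VU.t_P7 Run7.h415.VU.t_P8 Run7.h711.VU.t_P9 Run7.h53.VU.t_P10
    Run7.h711.VU.t_P11 Run7.h53.VU.t_P12 Pool.Agent.Run7.h440.VU.t_P13 t_P14 Run7.h393.VU.t_P15
    Run7.h743.VU.t_P16

end Run7.h260.VU
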