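import Pool.Agent.Run7.h260.VU.Iface

/-!
# The near trace to all orders on the square of size `K / n`
-/

set_option autoImplicit false

namespace Run7.h260.VU

open Filter Topology Metric Function Finset
open Pool.Agent.W711.HT hiding bb
open Pool.Agent.Y472 Pool.Agent.Y472.K
open Pool.Agent.W719.AX (UX EXY)
open Run7.h260.VC Run7.h260.VX
open Pool.Agent.Y482.Ph (GXc nearS SB)
open GapVol (lob)
open scoped Real

/-- even analytic functions -/
lemma even_quad {g : ℂ → ℂ} {δ : ℝ} (hδ : 0 < δ) (h : ∀ χ : ℂ, ‖χ‖ ≤ δ → AnalyticAt ℂ g χ ∧ g (-χ) = g χ) :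
    ∃ C r : ℝ, 0 < C ∧ 0 < r ∧ r ≤ δ ∧ ∀ χ : ℂ, ‖χ‖ ≤ r → ‖g χ - g 0‖ ≤ C * ‖χ‖ ^ 2 := by
  have h0 := (h 0 (by simpa using hδ.le)).1
  have hd0 : deriv g 0 = 0 := by
    have h1 : (fun z => g (-z)) =ᶠ[𝓝 0] g := by
      filter_upwards [closedBall_mem_nhds (0 : ℂ) hδ] with z hz
      rw [mem_closedBall_zero_iff] at hz
      exact (h z hz).2
    have h2 := h1.deriv_eq
    have h3 : deriv (fun z => g (-z)) 0 = -deriv g 0 := by
      rw [deriv_comp_neg, neg_zero]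
    rw [h3] at h2
    have h4 : (2 : ℂ) * deriv g 0 = 0 := by linear_combination -h2
    simpa using h4
  have hdd := h0.deriv.differentiableAt
  have hO := hdd.isBigO_sub
  rw [hd0] at hO
  obtain ⟨C, hC⟩ := hO.bound
  obtain ⟨r, hr, hb⟩ := Metric.eventually_nhds_iff_ball.1 hC
  refine ⟨max C 1, min (r / 2) δ, by positivity, by positivity, min_le_right _ _, fun χ hχ => ?_⟩
  have hr2 : ‖χ‖ < r := by
    have := hχ.trans (min_le_left _ _)
    linarith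
  have hδ2 : ‖χ‖ ≤ δ := hχ.trans (min_le_right _ _)
  have key := Convex.norm_image_sub_le_of_norm_hasDerivWithin_le (s := closedBall (0 : ℂ) ‖χ‖)
    (f := g) (f' := deriv g) (C := max C 1 * ‖χ‖) (x := 0) (y := χ) ?_ ?_ (convex_closedBall 0 _) ?_ ?_
  · rw [sub_zero] at key
    refine key.trans (le_of_eq ?_)
    ring
  · intro w hw
    rw [mem_closedBall_zero_iff] at hw
    exact (h w (hw.trans hδ2)).1.differentiableAt.hasDerivAt.hasDerivWithinAt
  · intro w hw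
    rw [mem_closedBall_zero_iff] at hw
    have h1 := hb w (by rw [mem_ball_zero_iff]; exact hw.trans_lt hr2)
    simp only [sub_zero] at h1
    refine h1.trans ?_
    calc C * ‖w‖ ≤ max C 1 * ‖w‖ := by gcongr; exact le_max_left _ _
      _ ≤ max C 1 * ‖χ‖ := by gcongr
  · simp
  · simp

lemma exp_fX {n : ℕ} [NeZero n] : ∃ C : ℝ, 0 ≤ C ∧ ∀ᶠ N : ℕ in atTop,
    (∀ x ∈ ball (0 : Ix n → ℂ) (1 / 400000), ‖fX n N x‖ ≤ C * Real.exp (N * (Qp n x).re)) ∧
    ∀ x ∈ ball (0 : Ix n → ℂ) (1 / 400000), ∀ i,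
      DifferentiableOn ℂ (fun w => fX n N (update x i w)) (ball 0 (1 / 400000)) := by
  obtain ⟨A, hA⟩ := fX_ex n
  obtain ⟨C, hC⟩ := hA.ux 0
  refine ⟨max C 0, le_max_right _ _, ?_⟩
  filter_upwards [hC, hA.fd] with N hN hf
  refine ⟨fun x hx => ?_, hf⟩
  have h1 := hN x hx
  simp only [Finset.range_zero, Finset.sum_empty, sub_zero, pow_zero, div_one, norm_mul, Complex.norm_exp] at h1
  have h2 : (-((N : ℂ) * Qp n x)).re = -(N * (Qp n x).re) := by simp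
  rw [h2] at h1
  have h3 : Real.exp (-(N * (Qp n x).re)) * Real.exp (N * (Qp n x).re) = 1 := by
    rw [← Real.exp_add, neg_add_cancel, Real.exp_zero]
  have h4 : ‖fX n N x‖ = (Real.exp (-(N * (Qp n x).re)) * ‖fX n N x‖) * Real.exp (N * (Qp n x).re) := by
    rw [mul_assoc, mul_comm ‖fX n N x‖, ← mul_assoc, h3, one_mul]
  rw [h4]
  exact mul_le_mul_of_nonneg_right (h1.trans (le_max_left _ _)) (Real.exp_pos _).le

lemma mem_Sv {n : ℕ} {i : Ix n} : i ∈ Sv n ↔ i ≠ none := by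
  unfold Sv
  simp

/-- the near trace as a sum of the interpolated terms -/
lemma TN_eq {n : ℕ} [NeZero n] {ρ : ℝ} (hρ : ρ < 1 / 320000) : ∀ᶠ N : ℕ in atTop, ∀ χ : ℂ,
    ‖χ‖ < 1 / 80000 → TN n ρ N χ = (-1) ^ n * (((N : ℂ)⁻¹) ^ n *
      ∑ d ∈ Cf (1 / 3) (fun _ => ρ) (Sv n) N, fX n N (pt (1 / 3) (Sv n) N d (fun _ => χ))) := by
  have c5 : ∀ᶠ N : ℕ in atTop, 1 / (N : ℝ) < 1 / 80000 / 4 :=
    (tendsto_one_div_atTop_nhds_zero_nat (𝕜 := ℝ)).eventually_lt_const (by norm_num)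
  filter_upwards [interpX, c5, eventually_ge_atTop 1000000] with N hI c5 hN χ hχ
  have hN' : (0 : ℝ) < N := by
    have : 0 < N := by omega
    exact_mod_cast this
  have hNc : (N : ℂ) ≠ 0 := by
    have : N ≠ 0 := by omega
    exact_mod_cast this
  have hmm := (mX_bd hN).1
  have hc1 : χ / (2 * π) ∈ ball (0 : ℂ) (1 / 80000) := by
    rw [mem_ball_zero_iff, norm_div, norm_mul, Complex.norm_real, Real.norm_eq_abs,
      abs_of_pos Real.pi_pos]
    have h2 : ‖(2 : ℂ)‖ = 2 := by simp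
    rw [h2, div_lt_iff₀ (by positivity)]
    have := Real.pi_gt_three
    have := norm_nonneg χ
    nlinarith
  have hns := near_sum (n := n) (mm := mX) (D := DX) (by omega) (by linarith) hI (by norm_num)
    (by norm_num) c5 (ρ := fun _ => ρ) (fun i => by linarith) (x := fun _ => χ) hc1
  unfold TN
  rw [hns]
  have h0 := ST_fX (n := n) (fun _ => ρ) N (fun _ => χ)
  have h1 : ∑ d ∈ Cf (1 / 3) (fun _ => ρ) (Sv n) N, fX n N (pt (1 / 3) (Sv n) N d (fun _ => χ)) =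
      VC.ST (1 / 3) (fun _ => ρ) (Sv n) (fX n) N (fun _ => χ) := rfl
  rw [h1, h0]
  have h2 : (N : ℂ) * Md N χ / (Sd N ((N - 1) / 2) : ℂ) ^ 2 =
      N * (Md N χ / (Sd N ((N - 1) / 2) : ℂ) ^ 2) := by ring
  have h3 : ((N : ℂ)⁻¹) ^ n * (N : ℂ) ^ n = 1 := by
    rw [← mul_pow, inv_mul_cancel₀ hNc, one_pow]
  rw [h2, mul_pow]
  linear_combination (-((-1) ^ n * ((Md N χ / (Sd N ((N - 1) / 2) : ℂ) ^ 2) ^ n *
      VC.ST (1 / 3) (fun _ => ρ) (Sv n) (f0 n mX DX) N (fun _ => χ)))) * h3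

lemma TN_diff (n : ℕ) [NeZero n] (ρ : ℝ) (N : ℕ) : Differentiable ℂ (TN n ρ N) := by
  unfold TN Pool.Agent.Y472.K.Qc Pool.Agent.Y472.K.Pq
  refine Differentiable.const_mul ?_ _
  refine Differentiable.fun_sum fun c _ => ?_
  refine Differentiable.const_mul ?_ _
  refine Differentiable.fun_finsetProd fun r _ => ?_
  refine Differentiable.fun_finsetProd fun s _ => ?_
  fun_prop

lemma TN_even (n : ℕ) [NeZero n] (ρ : ℝ) (N : ℕ) (χ : ℂ) : TN n ρ N (-χ) = TN n ρ N χ := by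
  unfold TN
  congr 1
  refine Finset.sum_congr rfl fun c _ => ?_
  rw [Qc_congr (Complex.cos_neg χ)]

theorem t_P14 : S_P14 := by
  intro p5 p6 p7 p10 p11 p12
  obtain ⟨δ5, L, hδ5, hδ5', hL, H5⟩ := p5
  obtain ⟨δ11, hδ11, H11⟩ := p11 p6 p7
  obtain ⟨hGn, δ7, C7, hδ7, hδ7', hC7, H7⟩ := p7
  obtain ⟨CG, δG, hCG, hδG, hδG', HG⟩ := even_quad (g := Gv 1) hδ7
    (fun χ hχ => ⟨(H7 χ hχ).2.2.2.2.2.1, (H7 χ hχ).2.2.2.2.2.2.1⟩)
  obtain ⟨ρ₀, hρ₀d⟩ : ∃ ρ₀ : ℝ, ρ₀ = min (δ5 / 8) (min δ11 (1 / 10000000)) := ⟨_, rfl⟩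
  have hρ0 : 0 < ρ₀ := by rw [hρ₀d]; positivity
  have r5 : 4 * ρ₀ < δ5 := by
    have : ρ₀ ≤ δ5 / 8 := by rw [hρ₀d]; exact min_le_left _ _
    linarith
  have r11 : ρ₀ ≤ δ11 := by rw [hρ₀d]; exact (min_le_right _ _).trans (min_le_left _ _)
  have rr : ρ₀ ≤ 1 / 10000000 := by rw [hρ₀d]; exact (min_le_right _ _).trans (min_le_right _ _)
  obtain ⟨ε, κ, hε, hκ, H10⟩ := p10 ρ₀ hρ0 (by linarith)
  refine ⟨ρ₀, hρ0, fun K hK => ?_⟩
  -- the choice of `n₀`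
  have hlim : ∀ a : ℝ, Tendsto (fun n : ℕ => a / (n : ℝ)) atTop (𝓝 0) := fun a =>
    tendsto_const_div_atTop_nhds_zero_nat a
  obtain ⟨n₀, hn₀⟩ := Filter.eventually_atTop.1
    (((hlim (2 * K)).eventually_le_const (show 0 < min (min δ5 δ7) (min δ11 (min δG (1 / 10000000))) by positivity)).and
      (((hlim (8 * C7 * K ^ 2)).eventually_le_const hε).and
        (((hlim (4 * L * K ^ 2)).eventually_le_const hε).and
          ((hlim (4 * CG * K ^ 2)).eventually_le_const (half_pos hκ)))))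
  refine ⟨n₀, fun n _ hn => ?_⟩
  obtain ⟨e1, e2, e3, e4⟩ := hn₀ n hn
  have hnn : (0 : ℝ) < n := by exact_mod_cast Nat.pos_of_ne_zero (NeZero.ne n)
  obtain ⟨r, hr⟩ : ∃ r : ℝ, r = 2 * K / n := ⟨_, rfl⟩
  have hr0 : 0 < r := by rw [hr]; positivity
  rw [← hr] at e1
  have b5 : r ≤ δ5 := e1.trans ((min_le_left _ _).trans (min_le_left _ _))
  have b7 : r ≤ δ7 := e1.trans ((min_le_left _ _).trans (min_le_right _ _))
  have b11 : r ≤ δ11 := e1.trans ((min_le_right _ _).trans (min_le_left _ _))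
  have bG : r ≤ δG := e1.trans ((min_le_right _ _).trans ((min_le_right _ _).trans (min_le_left _ _)))
  have br : r ≤ 1 / 10000000 :=
    e1.trans ((min_le_right _ _).trans ((min_le_right _ _).trans (min_le_right _ _)))
  have q1 : (2 * n : ℝ) * (C7 * r ^ 2) ≤ ε := by
    refine (le_of_eq ?_).trans e2
    rw [hr]; field_simp; ring
  have q2 : L * n * r ^ 2 ≤ ε := by
    refine (le_of_eq ?_).trans e3
    rw [hr]; field_simp; ring
  have q3 : n * (CG * r ^ 2) ≤ κ / 2 := by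
    refine (le_of_eq ?_).trans e4
    rw [hr]; field_simp; ring
  have hGre : ∀ χ : ℂ, ‖χ‖ ≤ r → G0 n - κ / 2 ≤ (Gv n χ).re := by
    intro χ hχ
    have h1 := HG χ (hχ.trans bG)
    have h2 : ‖Gv n χ - Gv n 0‖ ≤ κ / 2 := by
      rw [hGn n χ, hGn n 0, ← mul_sub, norm_mul, Complex.norm_natCast]
      refine (mul_le_mul_of_nonneg_left (h1.trans (mul_le_mul_of_nonneg_left
        (pow_le_pow_left₀ (norm_nonneg _) hχ 2) hCG.le)) hnn.le).trans q3
    have h3 := (Complex.abs_re_le_norm _).trans h2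
    rw [Complex.sub_re, Gv_zero_re] at h3
    linarith [(abs_le.1 h3).1]
  obtain ⟨C₀, hC₀, hfX⟩ := exp_fX (n := n)
  have hcard : ((Sv n).card : ℝ) = 2 * n := by rw [card_Sv]; push_cast; ring
  -- the shift
  have hshift : ∀ᶠ N : ℕ in atTop, ∀ χ₁ : ℂ, ‖χ₁‖ ≤ r → ∀ χ : ℂ, ‖χ‖ ≤ r →
      ‖∑ d ∈ Cf (1 / 3) (fun _ => ρ₀) (Sv n) N, fX n N (pt (1 / 3) (Sv n) N d (fun _ => χ)) -
        ∑ d ∈ Cf (1 / 3) (fun _ => ρ₀) (Sv n) N,
          fX n N (fun i => if i ∈ Sv n then (d i : ℂ) / N - 1 / 3 + bet χ₁ else χ)‖ ≤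
        Real.exp (N * (G0 n - κ)) := by
    filter_upwards [H10 (Ix n) (Sv n) C₀ hC₀, hfX] with N hN hf χ₁ hχ₁ χ hχ
    have hin : ∀ y : Ix n → ℂ, (∀ j, j ∉ Sv n → y j = χ) → (∀ j ∈ Sv n, ‖y j‖ ≤ 4 * ρ₀) →
        (∀ j, ‖y j‖ ≤ δ5) ∧ y ∈ ball (0 : Ix n → ℂ) (1 / 400000) ∧ y none = χ := by
      intro y hy1 hy2
      have hy0 : y none = χ := hy1 none none_mem
      refine ⟨fun j => ?_, ?_, hy0⟩
      · by_cases hj : j ∈ Sv n
        · exact (hy2 j hj).trans r5.le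
        · rw [hy1 j hj]; exact hχ.trans b5
      · rw [mem_ball_zero_iff, pi_norm_lt_iff (by norm_num)]
        intro j
        by_cases hj : j ∈ Sv n
        · have := hy2 j hj
          linarith
        · rw [hy1 j hj]; linarith
    refine hN (fX n N) (G0 n) (fun _ => χ) (bet χ₁) ?_ ?_ ?_
    · rw [hcard]
      refine (mul_le_mul_of_nonneg_left ?_ (by positivity)).trans q1
      refine ((H7 χ₁ (hχ₁.trans b7)).1).trans ?_
      exact mul_le_mul_of_nonneg_left (pow_le_pow_left₀ (norm_nonneg _) hχ₁ 2) hC7.le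
    · intro y hy1 hy2 i hi
      obtain ⟨h1, h2, h3⟩ := hin y hy1 hy2
      refine (hf.2 y h2 i).differentiableAt (isOpen_ball.mem_nhds ?_)
      rw [mem_ball_zero_iff]
      have := hy2 i hi
      linarith
    · intro y hy1 hy2
      obtain ⟨h1, h2, h3⟩ := hin y hy1 hy2
      refine (hf.1 y h2).trans (mul_le_mul_of_nonneg_left (Real.exp_le_exp.2
        (mul_le_mul_of_nonneg_left ?_ (Nat.cast_nonneg N))) hC₀)
      have h4 := H5 n y h1
      rw [h3] at h4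
      have h5 : L * n * ‖χ‖ ^ 2 ≤ ε := (mul_le_mul_of_nonneg_left
        (pow_le_pow_left₀ (norm_nonneg _) hχ 2) (by positivity)).trans q2
      linarith
  -- the expansions near a point
  have hloc : ∀ χ₁ : ℂ, ‖χ₁‖ ≤ r → ∃ (R : ℝ) (A : ℕ → ℂ → ℂ), 0 < R ∧
      UX (fun N χ => Complex.exp (-(N * Gv n χ)) * TN n ρ₀ N χ) A (ball χ₁ R ∩ closedBall 0 r) ∧
      ∀ χ ∈ ball χ₁ R ∩ closedBall 0 r, A 0 χ ≠ 0 := by
    intro χ₁ hχ₁
    obtain ⟨R, A, hR, hUX, hA⟩ := H11 n ρ₀ hρ0 r11 χ₁ (hχ₁.trans b11)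
    refine ⟨R, fun k χ => (-1) ^ n * A k χ, hR, ?_, fun χ hχ =>
      mul_ne_zero (pow_ne_zero _ (by norm_num)) (hA χ hχ.1)⟩
    have hUX1 : UX (fun (N : ℕ) (χ : ℂ) => (-1) ^ n * (Complex.exp (-(N * Gv n χ)) * (((N : ℂ)⁻¹) ^ n *
      ∑ d ∈ Cf (1 / 3) (fun _ => ρ₀) (Sv n) N,
        fX n N (fun i => if i ∈ Sv n then (d i : ℂ) / N - 1 / 3 + bet χ₁ else χ))))
        (fun k χ => (-1) ^ n * A k χ) (ball χ₁ R ∩ closedBall 0 r) := by
      intro K'
      obtain ⟨C, hC⟩ := ux_mono hUX (Set.inter_subset_left (t := closedBall 0 r)) K'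
      refine ⟨C, ?_⟩
      filter_upwards [hC] with N hC χ hχ
      have h1 : ∑ k ∈ range K', (-1) ^ n * A k χ / (N : ℂ) ^ k =
          (-1) ^ n * ∑ k ∈ range K', A k χ / (N : ℂ) ^ k := by
        rw [Finset.mul_sum]
        exact Finset.sum_congr rfl fun k _ => mul_div_assoc _ _ _
      rw [h1, ← mul_sub, norm_mul, norm_pow, norm_neg, norm_one, one_pow, one_mul]
      exact hC χ hχ
    refine ux_small hUX1 (κ := κ / 2) (C := 1) (m := 0) (half_pos hκ) zero_le_one ?_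
    filter_upwards [hshift, TN_eq (n := n) (ρ := ρ₀) (by linarith), eventually_ge_atTop 1]
      with N h1 h2 hN χ hχ
    have hχr : ‖χ‖ ≤ r := by
      have := hχ.2
      rwa [mem_closedBall_zero_iff] at this
    rw [h2 χ (by linarith)]
    have h3 := h1 χ₁ hχ₁ χ hχr
    have hN' : (1 : ℝ) ≤ N := by exact_mod_cast hN
    obtain ⟨S1, hS1⟩ : ∃ S1 : ℂ, S1 = ∑ d ∈ Cf (1 / 3) (fun _ => ρ₀) (Sv n) N,
      fX n N (pt (1 / 3) (Sv n) N d (fun _ => χ)) := ⟨_, rfl⟩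
    obtain ⟨S2, hS2⟩ : ∃ S2 : ℂ, S2 = ∑ d ∈ Cf (1 / 3) (fun _ => ρ₀) (Sv n) N,
      fX n N (fun i => if i ∈ Sv n then (d i : ℂ) / N - 1 / 3 + bet χ₁ else χ) := ⟨_, rfl⟩
    rw [← hS1, ← hS2] at h3 ⊢
    have e : Complex.exp (-(N * Gv n χ)) * ((-1) ^ n * (((N : ℂ)⁻¹) ^ n * S1)) -
        (-1) ^ n * (Complex.exp (-(N * Gv n χ)) * (((N : ℂ)⁻¹) ^ n * S2)) =
        (-1) ^ n * ((N : ℂ)⁻¹) ^ n * (Complex.exp (-(N * Gv n χ)) * (S1 - S2)) := by ring
    rw [e, norm_mul, norm_mul, norm_pow, norm_neg, norm_one, one_pow, one_mul, norm_mul,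
      Complex.norm_exp, norm_pow, norm_inv, Complex.norm_natCast, pow_zero, mul_one, one_mul]
    have h4 : (-((N : ℂ) * Gv n χ)).re = -(N * (Gv n χ).re) := by simp
    rw [h4]
    have h5 : ((N : ℝ)⁻¹) ^ n ≤ 1 := pow_le_one₀ (by positivity) (inv_le_one_of_one_le₀ hN')
    have h6 : Real.exp (-(N * (Gv n χ).re)) * ‖S1 - S2‖ ≤ Real.exp (-(κ / 2 * N)) := by
      calc Real.exp (-(N * (Gv n χ).re)) * ‖S1 - S2‖ ≤ Real.exp (-(N * (Gv n χ).re)) *
            Real.exp (N * (G0 n - κ)) := by gcongr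
        _ = Real.exp (-(N * (Gv n χ).re) + N * (G0 n - κ)) := (Real.exp_add _ _).symm
        _ ≤ Real.exp (-(κ / 2 * N)) := by
            refine Real.exp_le_exp.2 ?_
            have h7 := hGre χ hχr
            have hN0 : (0 : ℝ) ≤ N := by linarith
            nlinarith
    calc ((N : ℝ)⁻¹) ^ n * (Real.exp (-(N * (Gv n χ).re)) * ‖S1 - S2‖) ≤
          1 * Real.exp (-(κ / 2 * N)) := by
            refine mul_le_mul h5 h6 (by positivity) zero_le_one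
      _ = _ := one_mul _
  obtain ⟨A, hUX, hA⟩ := p12 r (fun N χ => Complex.exp (-(N * Gv n χ)) * TN n ρ₀ N χ) hloc
  have hKr : K / n = r / 2 := by rw [hr]; ring
  have hsub : Rc (K / n) (K / n) ⊆ closedBall (0 : ℂ) r := by
    intro z hz
    rw [mem_closedBall_zero_iff]
    have := Complex.norm_le_abs_re_add_abs_im z
    have h1 := hz.1
    have h2 := hz.2
    rw [hKr] at h1 h2
    linarith
  refine ⟨A, ux_mono hUX hsub, ?_, fun χ hχ => hA χ (hsub hχ)⟩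
  intro k
  refine Pool.Agent.W303.AX.uxan (fun N χ => Complex.exp (-(N * Gv n χ)) * TN n ρ₀ N χ) A
    (Rc (K / n) (K / n)) (Pool.Agent.W293.HT.isOpen_Rc _ _) (by
      refine Eventually.of_forall fun N => ?_
      refine DifferentiableOn.mul ?_ (TN_diff n ρ₀ N).differentiableOn
      intro z hz
      have hz7 : ‖z‖ ≤ δ7 := by
        have := hsub hz
        rw [mem_closedBall_zero_iff] at this
        exact this.trans b7
      have h1 : DifferentiableAt ℂ (Gv n) z := by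
        have h2 : Gv n = fun χ => (n : ℂ) * Gv 1 χ := funext fun χ => hGn n χ
        rw [h2]
        exact ((H7 z hz7).2.2.2.2.2.1).differentiableAt.const_mul _
      exact ((h1.const_mul (N : ℂ)).fun_neg.cexp).differentiableWithinAt) (ux_mono hUX hsub) k

end Run7.h260.VU
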